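import Pool.Agent.K4H1.VN.Apx
import Pool.Agent.K4H1.VN.Fin
import Pool.Agent.K4H1.VN.Stm

/-!
# Property (T) factors: an isomorphism which is almost group-like on one finite set is group-like

`L2 G` is the Hilbert space `ℓ²(G)` with basis `delta g`, `lam` and `rho` are the left and the
right translations, and the group von Neumann algebra `L(G)` is the commutant of the right
translations: `InVN T` says that `T` belongs to it. For `T` in `L(G)` the numbers `T (delta 1) h` are
the Fourier coefficients of `T`, and `T (delta 1) 1` is its trace.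

Let `Γ` be a finitely presented group with infinite conjugacy classes and with Kazhdan's
property (T), for instance a lattice in a connected simple Lie group with trivial centre and real
rank at least two. There are a finite subset `B` of `Γ` and `ε > 0` such that for EVERY group `Λ` and
every homomorphism `v` of `Γ` to the unitary group of `L(Λ)` for which each of the finitely many
unitaries `v g`, `g ∈ B`, has a Fourier coefficient of absolute value more than `1 - ε`:

* if `v` comes from a trace preserving embedding of `L(Γ)` in `L(Λ)` (that is, `v g` has trace `0` for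
  `g ≠ 1`), then `Γ` embeds in `Λ`: there are an injective homomorphism `π : Γ → Λ`, a character `χ`
  and a nonzero vector `η` with `v g (rho (π g) η) = χ g η`;
* if `v` comes from an isomorphism of `L(Γ)` onto `L(Λ)` (`v g = U λ_g U⁻¹` for a unitary
  `U : ℓ²(Γ) → ℓ²(Λ)` with `U L(Γ) U⁻¹ = L(Λ)`), then it is group-like: there are an isomorphism of
  groups `π : Γ → Λ`, a character `χ` and a unitary `w` in `L(Λ)` with `w⁻¹ (v g) w = χ g λ_{π g}` for all
  `g`.
-/

set_option autoImplicit false

namespace Pool.Agent.Results.MP_0f6f3f_an.LocallyGroupLike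

open Pool.Agent.K4H1.VN
open Pool.Agent.Y276.Rig (PropertyT IsIcc)

theorem result (Γ : Type) [Group Γ] [Group.IsFinitelyPresented Γ] (hT : PropertyT Γ)
    (hicc : IsIcc Γ) :
    ∃ (B : Finset Γ) (ε : ℝ), 0 < ε ∧ ∀ (Λ : Type) [Group Λ] (v : Γ →* Uni Λ), InUL v →
      AlmostGroupLikeOn B ε v →
        (IsTracePreserving v → ∃ (π : Γ →* Λ) (χ : Γ →* Circle) (η : L2 Λ),
          Function.Injective π ∧ η ≠ 0 ∧ Intertwines v π χ η) ∧
        (∀ U : L2 Γ ≃ₗᵢ[ℂ] L2 Λ, Implements U v → IsSpatialIso U →
          ∃ (π : Γ ≃* Λ) (χ : Γ →* Circle) (w : Uni Λ), IsGroupLikeVia v π χ w) := by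
  obtain ⟨B, ε, hε, hB⟩ := exists_intertwiner (Γ := Γ) hT
  refine ⟨B, ε, hε, fun Λ _ v hv hvB => ?_⟩
  obtain ⟨π, χ, η, hη0, hη⟩ := hB Λ v hv hvB
  refine ⟨fun htr => ⟨π, χ, η, ?_, hη0, hη⟩, fun U hU hiso => ?_⟩
  · exact injective_of hicc hv (c0 (v := fun g => v g) fun a => orthonormal_delta hv htr a) hη0 hη
  · have hinj : Function.Injective π := injective_of hicc hv (c0_iso hU) hη0 hη
    have hn : ‖η‖ ≠ 0 := norm_ne_zero_iff.2 hη0
    have hη1 : ‖((‖η‖⁻¹ : ℝ) : ℂ) • η‖ = 1 := by
      rw [norm_smul, Complex.norm_real, norm_inv, norm_norm, inv_mul_cancel₀ hn]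
    have hη2 : ∀ g, v g (rho (π g) (((‖η‖⁻¹ : ℝ) : ℂ) • η)) =
        (χ g : ℂ) • (((‖η‖⁻¹ : ℝ) : ℂ) • η) := by
      intro g
      rw [map_smul, map_smul, hη, smul_comm]
    obtain ⟨hsurj, w, hw, hvw⟩ := iso_case hicc hv hU hiso hη1 hη2
    exact ⟨MulEquiv.ofBijective π ⟨hinj, hsurj⟩, χ, w, hw, fun g f => hvw g f⟩

end Pool.Agent.Results.MP_0f6f3f_an.LocallyGroupLike
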