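import Pool.Agent.K4H66.VN.C

/-!
# Isomorphisms of group von Neumann algebras which respect a residual family of normal subgroups

`L2 G` is the Hilbert space `ℓ²(G)` with basis `delta g`, `lam` and `rho` are the left and the
right translations, and the group von Neumann algebra `L(G)` is the commutant of the right
translations: `InVN T` says that `T` belongs to it; for a subset `H` the condition
`SuppIn (T (delta 1)) H` says that `T` is in `L(H)`. An isomorphism `θ` of `L(Γ)` onto `L(Λ)` is
implemented by the unitary `U : ℓ²(Γ) → ℓ²(Λ)`, `U (x δ₁) = θ(x) δ₁`, as `θ(x) = U x U⁻¹`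
(`IsStdIso U`; for icc groups every isomorphism is of this form).

Let `N` be a normal subgroup of `Γ` such that every `g ≠ 1` has infinitely many conjugates
`n g n⁻¹`, `n` in `N` (`RelIcc N`; this is so if `Γ` is icc and `N` has finite index). The
isomorphism `θ` *respects* `N` if

* `θ(L(N)) = L(K)` for some subgroup `K` of `Λ` (`MapsSub U N K`), or
* `λ_s θ(L(N)) λ_s⁻¹ ⊆ θ(L(N))` for all `s` in `Λ` (`Normalised U N`).

**Theorem.** For ALL groups `Γ`, `Λ` and all isomorphisms `θ` of `L(Γ)` onto `L(Λ)`:

1. if `θ` respects `N` then `θ(L(N)) = L(K)` for a normal subgroup `K` of `Λ`, and `Γ / N` and `Λ / K`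
   are isomorphic groups;
2. if `θ` respects the members of a family of such normal subgroups with trivial intersection (for
   instance infinitely many congruence subgroups of an arithmetic group) then `θ` is group-like: there are
   an isomorphism of groups `π : Γ → Λ` and a character `χ` with `θ(u_g) = χ(g) u_{π(g)}` for all `g`.

Idea: let `f_s = U⁻¹ δ_s`. If `θ(L(N)) = L(K)` then the restriction `f` of `f_s` to a coset of `N` is
fixed by the operators `θ⁻¹(λ_k) (U⁻¹ ρ_{s⁻¹ks} U)`, `k` in `K ∩ s K s⁻¹`. This group has finite index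
in `K` (the Fourier coefficients of `θ(u_g)` have the same mass on all the cosets `K t k`), so that
its nontrivial orbits in `Λ` are infinite and `U f` is a multiple of `δ_s`. If `θ(L(N))` is
normalised by `Λ`, the coefficients of the restrictions of `θ⁻¹(λ_s)` to two cosets of `N` are
orthogonal to all their translates, which is impossible if both are nonzero. In both cases `f_s` is
supported on one coset of `N`, and `s ↦` this coset is a homomorphism of `Λ` onto `Γ / N`.
-/

set_option autoImplicit false

namespace Pool.Agent.Results.MP_0f6f3f_an.ResidualFamilies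

open Pool.Agent.K4H1.VN Pool.Agent.K4H66.VN Pool.Agent.Y276.Rig

theorem result (Γ Λ : Type) [Group Γ] [Group Λ] :
    (∀ N : Subgroup Γ, IsIcc Γ → N.FiniteIndex → RelIcc N) ∧
    ∀ U : L2 Γ ≃ₗᵢ[ℂ] L2 Λ, IsStdIso U →
      -- 1. one normal subgroup
      (∀ (N : Subgroup Γ) [N.Normal], RelIcc N → Respects U N → Corresponds U N) ∧
      -- 2. a family with trivial intersection
      (∀ (ι : Type) (N : ι → Subgroup Γ), (∀ i, (N i).Normal) → (∀ i, RelIcc (N i)) →
        (∀ i, Respects U (N i)) → (∀ g, (∀ i, g ∈ N i) → g = 1) → IsGroupLike U) :=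
  ⟨fun _ hicc hN => relIcc_of_finiteIndex hicc hN, fun _ hU =>
    ⟨fun _ hNn hN h => one_subgroup hU hNn hN h,
      fun _ N hNn hN h ht => family hU N hNn hN h ht⟩⟩

end Pool.Agent.Results.MP_0f6f3f_an.ResidualFamilies
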