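import Pool.Agent.K4H1.VN.RelAbs
import Pool.Agent.K4H1.VN.RelMx

/-!
# Groups of matrices over any ring: a finite subset of a subgroup with property (T) decides

`L2 G` is the Hilbert space `ℓ²(G)` with basis `delta g`, `lam` and `rho` are the left and the
right translations, and the group von Neumann algebra `L(G)` is the commutant of the right
translations: `InVN T` says that `T` belongs to it. An isomorphism `θ` of `L(Γ)` onto `L(Λ)` is
`θ(x) = U x U⁻¹` for a unitary operator `U` of `ℓ²(Γ)` onto `ℓ²(Λ)` (`IsSpatialIso U`; for groups with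
infinite conjugacy classes every isomorphism is of this form).

Let `Δ` be a finitely presented group with Kazhdan's property (T), for instance `SL_m(ℤ)`, `m ≥ 3`, or
a subgroup of finite index of it. There are a finite subset `B` of `Δ` and `ε > 0`, which depend on
`Δ` ONLY, such that the following holds for every domain `R` of characteristic `0`, every `n ≥ 3`,
every subgroup `Γ` of `SL_n(R)` which contains a positive power of each elementary matrix
`1 + r E_ij`, `r` in `R`, every group `Λ`, and every homomorphism `j : Δ → Γ` such that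
`1 + m E_kl` belongs to `j(Δ)` for sufficiently many `k ≠ l` and some `m ≠ 0` (`HasElems`):

if `θ` is an isomorphism of `L(Γ)` onto `L(Λ)` and each of the finitely many unitaries `θ(u_{j(b)})`,
`b` in `B`, has a Fourier coefficient of absolute value more than `1 - ε`, then `θ` is group-like up to
conjugation: there are an isomorphism of groups `π : Γ → Λ`, a character `χ` of `Γ` and a unitary `w`
in `L(Λ)` with `w⁻¹ θ(u_g) w = χ(g) u_{π(g)}` for all `g` in `Γ`.

`HasElems j` holds, for instance, for `Δ = SL_{n-1}(ℤ)` in the upper left corner, `n ≥ 4`, if `Γ` has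
no element `diag(a, …, a, b) ≠ 1`, and for `Δ = SL_n(ℤ)` if `Γ` has no scalar matrix other than `1`,
and for the subgroups of finite index of these two groups. The group `Γ` can be, for instance, a
lattice in a product of groups `SL_n(ℝ)`, `SL_n(ℂ)`, but it need not have property (T) and it need
not be finitely generated.
-/

set_option autoImplicit false

namespace Pool.Agent.Results.MP_0f6f3f_an.SmallSubgroupSeeds

open Pool.Agent.K4H1.VN
open Pool.Agent.Y276.Rig (PropertyT)

theorem result (Δ : Type) [Group Δ] [Group.IsFinitelyPresented Δ] (hT : PropertyT Δ) :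
    ∃ (B : Finset Δ) (ε : ℝ), 0 < ε ∧
      ∀ (R : Type) [CommRing R] [IsDomain R] [CharZero R] (I : Type) [Fintype I] [DecidableEq I]
        (Γ : Subgroup (Matrix.SpecialLinearGroup I R)) (j : Δ →* Γ),
        3 ≤ Fintype.card I → Rich Γ → HasElems j → Decides B ε j := by
  obtain ⟨B, ε, hε, hB⟩ := rel_main hT
  refine ⟨B, ε, hε, fun R _ _ _ I _ _ Γ j hI hΓ hj Λ _ U hU hUB => ?_⟩
  have hicc : RelIcc j := relIcc_of_elems hI hj
  obtain ⟨U₀, hU₀, h₀⟩ := exists_std hicc.isIcc hU
  obtain ⟨π₀, χ₀, w, T, hw, hT', h1, h2⟩ := hB Γ Λ j U₀ hicc hU₀.2 fun k hk => by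
    obtain ⟨h, hh⟩ := hUB k hk
    refine ⟨h, ?_⟩
    rw [h₀]
    exact hh
  have hU₁ := stdIso_twist hU₀ hw hT' h1
  have hgl : ∀ d, GroupLikeAt ((U₀.trans T).trans w.symm) (j d) := fun d =>
    ⟨χ₀ d, π₀ d, twist_apply hU₀.2 hT' (h2 d)⟩
  obtain ⟨π, χ, hπ⟩ := exists_equiv hU₁ (gl_of_elems hI hΓ hj hU₁ hgl)
  refine ⟨π, χ, w, hw, fun g f => ?_⟩
  have h3 := twist_back hU₀.2 hT' (hπ g) f
  have h4 := h₀ g (w f)
  rw [cv_apply, cv_apply] at h4
  rw [← h4, h3]

end Pool.Agent.Results.MP_0f6f3f_an.SmallSubgroupSeeds
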