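import Pool.Agent.K4H1.VN.Mx

/-!
# Arithmetic groups of matrices: two group-like unipotents make an isomorphism group-like

`L2 G` is the Hilbert space `ℓ²(G)` with basis `delta g`, `lam` and `rho` are the left and the
right translations, and the group von Neumann algebra `L(G)` is the commutant of the right
translations: `InVN T` says that `T` belongs to it. An isomorphism `θ` of `L(Γ)` onto `L(Λ)` is
implemented by the unitary `U : ℓ²(Γ) → ℓ²(Λ)`, `U (x δ₁) = θ(x) δ₁`, as `θ(x) = U x U⁻¹`
(`IsStdIso U`; for icc groups every isomorphism is of this form).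

Let `R` be a domain of characteristic `0`, `n ≥ 3` and `Γ` a subgroup of `SL_n(R)` which contains a
positive power of every elementary matrix `1 + r E_ij`, `r` in `R` (for instance a subgroup of
finite index of `SL_n(R)`, or a subgroup of `SL_n(K)` commensurable with `SL_n(O_K)`). Let `θ` be an
isomorphism of `L(Γ)` onto `L(Λ)`, for ANY group `Λ`. Assume one of the following:

* (seeds) `Γ` has no element `diag(a, …, a, b) ≠ 1` (with `b` in one fixed place `o`), and `θ(u_g)` is
  a multiple of an element of `Λ` for suitable elementary matrices `g = 1 + m_kl E_kl`, `m_kl ≠ 0`,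
  such that any two indices other than `o` are joined by a chain of pairs `(k, l)`; these can be
  `n - 1` matrices, and TWO matrices `1 + m E_12`, `1 + m' E_21` for `n = 3`;
* (columns) `Γ` has no scalar matrix other than `1`, and `θ` maps each of the finitely many algebras
  `L(Γ_v)`, `Γ_v = {g ∈ Γ : g = 1 + v φ}`, for the columns `v = e_i` and `v = e_i + e_j`, onto the
  algebra `L(K)` of a subgroup `K` of `Λ`.

Then `θ` is group-like: there are an isomorphism of groups `π : Γ → Λ` and a character `χ` with
`θ(u_g) = χ(g) u_{π(g)}` for all `g`.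
-/

set_option autoImplicit false

namespace Pool.Agent.Results.MP_0f6f3f_an.UnipotentSeeds

open Pool.Agent.K4H1.VN

theorem result (R : Type) [CommRing R] [IsDomain R] [CharZero R] (I : Type) [Fintype I]
    [DecidableEq I] (hI : 3 ≤ Fintype.card I) (Γ : Subgroup (Matrix.SpecialLinearGroup I R))
    (hΓ : Rich Γ) (Λ : Type) [Group Λ] (U : L2 Γ ≃ₗᵢ[ℂ] L2 Λ) (hU : IsStdIso U)
    (h : HasSeeds U ∨ RespectsColumns U) :
    ∃ (π : Γ ≃* Λ) (χ : Γ →* Circle), ∀ g f, U (lam g f) = (χ g : ℂ) • lam (π g) (U f) := by
  refine exists_equiv hU fun g => ?_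
  rcases h with ⟨o, hd, hs⟩ | ⟨hS, hC, hC'⟩
  · exact gl_of_seeds hU hI hΓ hd (seedHyp_of_trans hU hs) g
  · exact gl_of_cols hU hI hΓ hS hC hC' g

end Pool.Agent.Results.MP_0f6f3f_an.UnipotentSeeds
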